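import Pool.Agent.Helper36.CV.StmtsE

/-!
# Block E1: left isolated points are edges; windows; countability
-/

set_option autoImplicit false

namespace Pool.Agent.Helper36.CV

open Complex Filter Topology MeasureTheory Set Pointwise

noncomputable section

lemma e1_cont {Hm Hp : ℝ} {C : Set ℝ} (cd : CD Hm Hp C) : Continuous (Nf cd) := by
  have h1 : ContinuousOn (fun t : ℝ => cd.f (t : ℂ)) univ := by
    apply cd.cont.comp (continuous_ofReal.continuousOn)
    intro t _
    simp
  have h2 : Continuous (fun t : ℝ => cd.f (t : ℂ)) := continuousOn_univ.1 h1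
  exact continuous_re.comp h2

lemma e1_mono {Hm Hp : ℝ} {C : Set ℝ} (cd : CD Hm Hp C) {x y : ℝ} (h : x ≤ y) :
    Nf cd x ≤ Nf cd y := cd.re_mono x y h

/-- the set of all labels is countable -/
lemma e1_lab_countable : {x : ℝ | ∃ m n : ℤ, x = n + m * gam}.Countable := by
  have h : {x : ℝ | ∃ m n : ℤ, x = n + m * gam} = range (fun p : ℤ × ℤ => (p.2 : ℝ) + p.1 * gam) := by
    ext x
    constructor
    · rintro ⟨m, n, h⟩
      exact ⟨(m, n), h.symm⟩
    · rintro ⟨⟨m, n⟩, h⟩
      exact ⟨m, n, h.symm⟩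
  rw [h]
  exact countable_range _

/-- the labels are constant on an interval outside `C` -/
lemma e1_const {Hm Hp : ℝ} {C : Set ℝ} (cd : CD Hm Hp C) {a b : ℝ}
    (h : ∀ t ∈ Ioo a b, 0 < (cd.f t).im) : ∀ x ∈ Ioo a b, ∀ y ∈ Ioo a b, x ≤ y →
    Nf cd x = Nf cd y := by
  intro x hx y hy hxy
  by_contra hne
  have hlt : Nf cd x < Nf cd y := lt_of_le_of_ne (e1_mono cd hxy) hne
  have hsub : Icc (Nf cd x) (Nf cd y) ⊆ {x : ℝ | ∃ m n : ℤ, x = n + m * gam} := by
    intro v hv
    obtain ⟨t, ht, rfl⟩ := intermediate_value_Icc hxy (e1_cont cd).continuousOn hv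
    obtain ⟨m, n, h1, _⟩ := cd.lab t (h t ⟨lt_of_lt_of_le hx.1 ht.1, lt_of_le_of_lt ht.2 hy.2⟩)
    exact ⟨m, n, h1⟩
  have hc : (Icc (Nf cd x) (Nf cd y)).Countable := e1_lab_countable.mono hsub
  exact absurd (Cardinal.Real.Icc_countable_iff.1 hc) (not_le.2 hlt)

theorem st_E1 (hP2 : ST_P2) : ST_E1 := by
  intro Hm Hp C cd hHm
  obtain ⟨p1, _, _, _, _, _, _, _, _, _, _, p12⟩ := hP2 Hm Hp C cd hHm
  have hpos : ∀ t : ℝ, t ∉ C → 0 < (cd.f t).im := by
    intro t ht
    obtain ⟨h1, _, _, h4⟩ := p1 t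
    refine lt_of_le_of_ne h1 (fun h => ht (h4.2 h.symm))
  have hA : ∀ c ∈ C, (∃ δ : ℝ, 0 < δ ∧ ∀ y ∈ Ioo (c - δ) c, y ∉ C) → ∃ e : Edge cd, e.c = c := by
    rintro c hc ⟨δ, hδ, hiso⟩
    have hcon := e1_const cd (a := c - δ) (b := c) (fun t ht => hpos t (hiso t ht))
    have hmid : c - δ / 2 ∈ Ioo (c - δ) c := ⟨by linarith, by linarith⟩
    -- the value at `c`
    have hval : Nf cd c = Nf cd (c - δ / 2) := by
      have h1 : Tendsto (Nf cd) (𝓝[<] c) (𝓝 (Nf cd c)) :=
        (e1_cont cd).continuousAt.tendsto.mono_left nhdsWithin_le_nhds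
      have h2 : Tendsto (Nf cd) (𝓝[<] c) (𝓝 (Nf cd (c - δ / 2))) := by
        apply tendsto_const_nhds.congr'
        filter_upwards [Ioo_mem_nhdsLT (show c - δ / 2 < c by linarith)] with t ht
        exact hcon _ hmid t ⟨by linarith [ht.1], ht.2⟩ ht.1.le
      exact tendsto_nhds_unique h1 h2
    have hflat : ∀ t ∈ Icc (c - δ / 2) c, Nf cd t = Nf cd c := by
      intro t ht
      apply le_antisymm (e1_mono cd ht.2)
      rw [hval]
      exact e1_mono cd ht.1
    obtain ⟨m, n, hmn, _⟩ := cd.lab (c - δ / 2) (hpos _ (hiso _ hmid))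
    have hlt : Nf cd c < 1 := by
      refine lt_of_le_of_ne (p1 c).2.2.1 ?_
      intro h1
      have h2 := p12 (c - δ / 2) (c + 1) (by linarith) (by
        intro t ht
        rw [← hval]
        rcases le_total t c with h3 | h3
        · exact hflat t ⟨ht.1, h3⟩
        · apply le_antisymm
          · rw [h1]; exact (p1 t).2.2.1
          · exact e1_mono cd h3) c ⟨by linarith, by linarith⟩
      have h3 := (p1 c).2.2.2.1 hc
      rw [h3] at h2
      exact lt_irrefl _ h2
    exact ⟨⟨c, δ / 2, n, m, hc, by linarith, hflat, by rw [hval]; exact hmn, hlt⟩, rfl⟩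
  have hC : ∀ e : Edge cd, ∀ t : ℝ, e.c < t → e.N < Nf cd t := by
    intro e t ht
    refine lt_of_le_of_ne (e1_mono cd ht.le) ?_
    intro h1
    have h2 := p12 (e.c - e.δ) t (by linarith [e.hδ]) (by
      intro s hs
      rw [e.flat (e.c - e.δ) ⟨le_rfl, by linarith [e.hδ]⟩]
      rcases le_total s e.c with h3 | h3
      · exact e.flat s ⟨hs.1, h3⟩
      · apply le_antisymm
        · calc Nf cd s ≤ Nf cd t := e1_mono cd hs.2
            _ = Nf cd e.c := h1.symm
        · exact e1_mono cd h3) e.c ⟨by linarith [e.hδ], ht⟩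
    have h3 := (p1 e.c).2.2.2.1 e.hc
    rw [h3] at h2
    exact lt_irrefl _ h2
  refine ⟨hA, ?_, hC, ?_, ?_⟩
  · intro e
    have h1 : Tendsto (fun t => (Nf cd t - e.N) * (|e.mu| + 1)) (𝓝 e.c)
        (𝓝 ((Nf cd e.c - e.N) * (|e.mu| + 1))) := by
      apply Tendsto.mul_const
      exact ((e1_cont cd).tendsto e.c).sub_const _
    have h2 : (Nf cd e.c - e.N) * (|e.mu| + 1) < 1 / 1000 := by
      have : Nf cd e.c - e.N = 0 := sub_self _
      rw [this]
      norm_num
    have h3 := (tendsto_order.1 h1).2 _ h2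
    rw [Metric.eventually_nhds_iff] at h3
    obtain ⟨r, hr, h4⟩ := h3
    refine ⟨min (r / 2) e.δ, lt_min (by linarith) e.hδ, min_le_right _ _, ?_⟩
    intro t ht1 ht2
    apply le_of_lt
    apply h4
    rw [Real.dist_eq, abs_lt]
    have := min_le_left (r / 2) e.δ
    constructor <;> linarith
  · intro e t ht htC
    have h1 := p12 (e.c - e.δ) e.c (by linarith [e.hδ]) (by
      intro s hs
      rw [e.flat s hs, e.flat (e.c - e.δ) ⟨le_rfl, by linarith [e.hδ]⟩]) t ht
    have h3 := (p1 t).2.2.2.1 htC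
    rw [h3] at h1
    exact lt_irrefl _ h1
  · apply Set.countable_of_injective_of_countable_image (f := Nf cd)
    · intro c hc c' hc' heq
      rcases lt_trichotomy c c' with h | h | h
      · obtain ⟨e, he⟩ := hA c hc.1 hc.2
        have := hC e c' (by rw [he]; exact h)
        rw [Edge.N, he] at this
        exact absurd heq this.ne
      · exact h
      · obtain ⟨e, he⟩ := hA c' hc'.1 hc'.2
        have := hC e c (by rw [he]; exact h)
        rw [Edge.N, he] at this
        exact absurd heq.symm this.ne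
    · apply e1_lab_countable.mono
      rintro v ⟨c, hc, rfl⟩
      obtain ⟨e, he⟩ := hA c hc.1 hc.2
      refine ⟨e.m, e.n, ?_⟩
      rw [← he]
      exact e.lab

end

end Pool.Agent.Helper36.CV
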