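import Pool.Agent.Helper36.CV.StmtsE

/-!
# Block E11: generic couplings
-/

set_option autoImplicit false

namespace Pool.Agent.Helper36.CV

open Complex Filter Topology MeasureTheory Set Pointwise

noncomputable section

/-- left isolated points -/
def e11_L (C : Set ℝ) : Set ℝ := {c : ℝ | c ∈ C ∧ ∃ δ : ℝ, 0 < δ ∧ ∀ y ∈ Ioo (c - δ) c, y ∉ C}

/-- couplings near which dead points exist -/
def e11_U (C : Set ℝ) (K : ℝ → Set ℝ) (lo : ℝ → ℝ) (c : ℝ) (q : ℕ) : Set ℝ :=
  {l | ∃ a b : ℝ, l ∈ Ioo a b ∧ ∀ l' ∈ Ioo a b, ∃ x : ℝ, c + lo l' < x ∧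
    x < c + lo l' + 1 / ((q : ℝ) + 1) ∧ ∀ k ∈ K l', lo l' ≤ k → c ≤ x - k → x - k ∉ C}

lemma e11_U_open (C : Set ℝ) (K : ℝ → Set ℝ) (lo : ℝ → ℝ) (c : ℝ) (q : ℕ) :
    IsOpen (e11_U C K lo c q) := by
  rw [isOpen_iff_mem_nhds]
  rintro l ⟨a, b, hl, h⟩
  refine Filter.mem_of_superset (Ioo_mem_nhds hl.1 hl.2) ?_
  intro l' hl'
  exact ⟨a, b, hl', h⟩

/-- density on an interval -/
lemma e11_dense {A0 B0 : ℝ} {U : Set ℝ}
    (h : ∀ a b : ℝ, A0 < a → a < b → b < B0 → ∃ l ∈ Icc a b, l ∈ U) :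
    Ioo A0 B0 ⊆ closure U := by
  intro l hl
  rw [Metric.mem_closure_iff]
  intro ε hε
  obtain ⟨h1, h2⟩ := hl
  set a : ℝ := max ((A0 + l) / 2) (l - ε / 2) with ha
  set b : ℝ := min ((B0 + l) / 2) (l + ε / 2) with hb
  have ha1 : A0 < a := lt_of_lt_of_le (by linarith) (le_max_left _ _)
  have ha2 : a < l := max_lt (by linarith) (by linarith)
  have hb1 : b < B0 := lt_of_le_of_lt (min_le_left _ _) (by linarith)
  have hb2 : l < b := lt_min (by linarith) (by linarith)
  have ha3 : l - ε / 2 ≤ a := le_max_right _ _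
  have hb3 : b ≤ l + ε / 2 := min_le_right _ _
  obtain ⟨x, hx, hxU⟩ := h a b ha1 (ha2.trans hb2) hb1
  refine ⟨x, hxU, ?_⟩
  rw [Real.dist_eq, abs_lt]
  constructor <;> linarith [hx.1, hx.2]

theorem st_E11 (hE1 : ST_E1) (hE10 : ST_E10) : ST_E11 := by
  intro cK hcK
  obtain ⟨ε0, hε0, h10⟩ := hE10 cK hcK
  refine ⟨ε0, hε0, ?_⟩
  intro Hm Hp C cd A0 B0 K hA0 hAB hA0ε hC hPar F
  -- positivity of `Hm`
  have hHm : 0 < Hm := by
    obtain ⟨h1, _, h3⟩ := hPar ((A0 + B0) / 2) ⟨by linarith, by linarith⟩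
    have h4 : 0 < 4 * Real.sqrt 5 * Hm := by
      refine lt_of_lt_of_le ?_ h3
      positivity
    have h5 : (0 : ℝ) < 4 * Real.sqrt 5 := by positivity
    exact (mul_pos_iff_of_pos_left h5).1 h4
  obtain ⟨e1a, _, _, _, e1c⟩ := hE1 Hm Hp C cd hHm
  have hLc : (e11_L C).Countable := e1c
  have : Countable (e11_L C) := hLc.to_subtype
  have : Countable F.ι := F.cnt
  -- the sets of the first and of the second kind
  let J : Type := (e11_L C × F.ι × ℕ) ⊕ (e11_L C × e11_L C × F.ι × F.ι)
  have : Countable J := inferInstanceAs (Countable (_ ⊕ _))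
  let V : J → Set ℝ := fun j => match j with
    | Sum.inl (c, w, q) => e11_U C K (F.lo w) c q
    | Sum.inr (c, c', w, w') =>
      {l | (∀ l' ∈ Ioo A0 B0, F.lo w l' = F.lo w' l') ∨
        (l ∈ Ioo A0 B0 ∧ F.lo w l - F.lo w' l ≠ (c' : ℝ) - c)}
  have hV : ∀ j : J, IsOpen (V j) ∧ Ioo A0 B0 ⊆ closure (V j) := by
    rintro (⟨c, w, q⟩ | ⟨c, c', w, w'⟩)
    · refine ⟨e11_U_open _ _ _ _ _, ?_⟩
      obtain ⟨e, he⟩ := e1a c.1 c.2.1 c.2.2
      apply e11_dense
      intro a b ha hab hb
      obtain ⟨a', b', h1, h2, h3, h4⟩ := h10 Hm Hp C cd A0 B0 K hA0 hA0ε hPar F e w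
        (1 / ((q : ℝ) + 1)) a b (by positivity) ha hab hb
      refine ⟨(a' + b') / 2, ⟨by linarith, by linarith⟩, a', b', ⟨by linarith, by linarith⟩, ?_⟩
      intro l' hl'
      have := h4 l' hl'
      rw [he] at this
      exact this
    · by_cases hid : ∀ l' ∈ Ioo A0 B0, F.lo w l' = F.lo w' l'
      · have : V (Sum.inr (c, c', w, w')) = univ := by
          apply eq_univ_of_forall
          intro l
          exact Or.inl hid
        rw [this]
        exact ⟨isOpen_univ, by simp⟩
      · have heq : V (Sum.inr (c, c', w, w')) =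
            Ioo A0 B0 ∩ (fun l => F.lo w l - F.lo w' l) ⁻¹' {x | x ≠ (c' : ℝ) - c} := by
          ext l
          constructor
          · rintro (h | h)
            · exact absurd h hid
            · exact h
          · intro h
            exact Or.inr h
        rw [heq]
        constructor
        · exact ((F.cl w).sub (F.cl w')).isOpen_inter_preimage isOpen_Ioo isOpen_ne
        · apply e11_dense
          intro a b ha hab hb
          rcases F.g2 w w' with h | h
          · exact absurd h hid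
          · obtain ⟨l, hl, hne⟩ := h ((c' : ℝ) - c) a b ha hab hb
            exact ⟨l, ⟨hl.1.le, hl.2.le⟩, ⟨lt_trans ha hl.1, lt_trans hl.2 hb⟩, hne⟩
  obtain ⟨fn, hfn⟩ := exists_surjective_nat (Option J)
  refine ⟨fun n => match fn n with
    | none => univ
    | some j => V j, ?_, ?_⟩
  · intro n
    cases hn : fn n with
    | none =>
      simp only [hn]
      exact ⟨isOpen_univ, by simp⟩
    | some j =>
      simp only [hn]
      exact hV j
  · intro l hl hU
    have hall : ∀ j : J, l ∈ V j := by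
      intro j
      obtain ⟨n, hn⟩ := hfn (some j)
      have := hU n
      simp only [hn] at this
      exact this
    -- left ends
    intro e he hiso η hη
    by_contra hcon
    push Not at hcon
    obtain ⟨δ, hδ, hδe⟩ := hiso
    -- both summands of a representation are left isolated
    have hrep : ∀ y ∈ C, ∀ k ∈ K l, y + k = e →
        (∀ y' ∈ Ioo (y - δ) y, y' ∉ C) ∧ ∀ k' ∈ Ioo (k - δ) k, k' ∉ K l := by
      intro y hy k hk hyk
      constructor
      · intro y' hy' hy'C
        refine hδe (y' + k) ⟨?_, ?_⟩ (Set.add_mem_add hy'C hk)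
        · linarith [hy'.1]
        · linarith [hy'.2]
      · intro k' hk' hk'K
        refine hδe (y + k') ⟨?_, ?_⟩ (Set.add_mem_add hy hk'K)
        · linarith [hk'.1]
        · linarith [hk'.2]
    obtain ⟨y0, hy0, k0, hk0, hyk⟩ := Set.mem_add.1 he
    obtain ⟨hy0i, hk0i⟩ := hrep y0 hy0 k0 hk0 hyk
    obtain ⟨w, hw⟩ := F.g3 l hl k0 hk0 ⟨δ, hδ, hk0i⟩
    have huniq : ∀ y ∈ C, ∀ k ∈ K l, y + k = e → y = y0 ∧ k = k0 := by
      intro y hy k hk hyk'
      obtain ⟨hyi, hki⟩ := hrep y hy k hk hyk'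
      obtain ⟨w', hw'⟩ := F.g3 l hl k hk ⟨δ, hδ, hki⟩
      have h1 := hall (Sum.inr (⟨y0, hy0, δ, hδ, hy0i⟩, ⟨y, hy, δ, hδ, hyi⟩, w, w'))
      rcases h1 with h1 | ⟨_, h1⟩
      · have h2 : k = k0 := by rw [← hw, ← hw', h1 l hl]
        exact ⟨by linarith, h2⟩
      · exfalso
        apply h1
        rw [hw, hw']
        simp only
        linarith
    -- compactness
    have hKc := F.cpt l hl
    obtain ⟨ζ, hζ, hζ2⟩ : ∃ ζ : ℝ, 0 < ζ ∧ ∀ y ∈ C, ∀ k ∈ K l, |y + k - e| < ζ →
        |y - y0| < δ ∧ |k - k0| < δ := by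
      let Z : Set (ℝ × ℝ) := (C ×ˢ K l) ∩ {p | δ ≤ |p.1 - y0| ∨ δ ≤ |p.2 - k0|}
      have hZc : IsCompact Z := by
        apply (hC.prod hKc).inter_right
        apply IsClosed.union
        · have h1 : Continuous (fun p : ℝ × ℝ => |p.1 - y0|) := by fun_prop
          exact isClosed_le continuous_const h1
        · have h1 : Continuous (fun p : ℝ × ℝ => |p.2 - k0|) := by fun_prop
          exact isClosed_le continuous_const h1
      rcases Z.eq_empty_or_nonempty with hZ | hZ
      · refine ⟨1, one_pos, ?_⟩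
        intro y hy k hk _
        by_contra hc
        have : (y, k) ∈ Z := by
          refine ⟨⟨hy, hk⟩, ?_⟩
          by_contra hc2
          apply hc
          simp only [mem_ofPred_eq, not_or, not_le] at hc2
          exact hc2
        rw [hZ] at this
        exact this
      · obtain ⟨p, hp, hmin⟩ := hZc.exists_isMinOn hZ
          (f := fun p : ℝ × ℝ => |p.1 + p.2 - e|) (by fun_prop)
        have hpos : 0 < |p.1 + p.2 - e| := by
          rw [abs_pos]
          intro h0
          obtain ⟨h1, h2⟩ := huniq p.1 hp.1.1 p.2 hp.1.2 (by linarith)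
          rcases hp.2 with h3 | h3
          · rw [h1, sub_self, abs_zero] at h3
            linarith
          · rw [h2, sub_self, abs_zero] at h3
            linarith
        refine ⟨_, hpos, ?_⟩
        intro y hy k hk hyk2
        by_contra hc
        have : (y, k) ∈ Z := by
          refine ⟨⟨hy, hk⟩, ?_⟩
          by_contra hc2
          apply hc
          simp only [mem_ofPred_eq, not_or, not_le] at hc2
          exact hc2
        have h4 := hmin this
        simp only [mem_ofPred_eq] at h4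
        linarith
    -- a dead point
    obtain ⟨q, hq⟩ := exists_nat_one_div_lt (lt_min hη hζ)
    have hdead := hall (Sum.inl (⟨y0, hy0, δ, hδ, hy0i⟩, w, q))
    obtain ⟨a, b, hab, hdead⟩ := hdead
    obtain ⟨x, hx1, hx2, hx3⟩ := hdead l hab
    rw [hw] at hx1 hx2 hx3
    simp only at hx1 hx2 hx3
    rw [hyk] at hx1 hx2
    have hq1 := lt_of_lt_of_le hq (min_le_left _ _)
    have hq2 := lt_of_lt_of_le hq (min_le_right _ _)
    have hxS := hcon x ⟨hx1, by linarith⟩
    obtain ⟨y, hy, k, hk, hyk3⟩ := Set.mem_add.1 hxS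
    obtain ⟨h5, h6⟩ := hζ2 y hy k hk (by
      rw [hyk3, abs_lt]
      constructor <;> linarith)
    rw [abs_lt] at h5 h6
    have hy1 : y0 ≤ y := by
      by_contra hc
      push Not at hc
      exact hy0i y ⟨by linarith, hc⟩ hy
    have hk1 : k0 ≤ k := by
      by_contra hc
      push Not at hc
      exact hk0i k ⟨by linarith, hc⟩ hk
    have h7 : x - k = y := by linarith
    refine hx3 k hk hk1 ?_ ?_
    · rw [h7]; exact hy1
    · rw [h7]; exact hy

end

end Pool.Agent.Helper36.CV
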